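import Pool.Agent.W426.LE.SG
set_option autoImplicit false
set_option maxHeartbeats 1000000

/-! # LE-YA : independence of the differences modulo `p` -/

namespace Pool.Agent.W970.LE.YA

open Finset
open scoped Classical
open Pool.Agent.W426.LE

/-- products of affine factors with the same linear parts agree in top degree -/
lemma deg {σ ι K : Type} [Field K] (T : Finset ι) (l : ι → MvPolynomial σ K)
    (hl : ∀ t, (l t).totalDegree ≤ 1) (c c' : ι → K) :
    (∏ t ∈ T, (l t + MvPolynomial.C (c t)) - ∏ t ∈ T, (l t + MvPolynomial.C (c' t)) = 0) ∨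
    (∏ t ∈ T, (l t + MvPolynomial.C (c t)) -
      ∏ t ∈ T, (l t + MvPolynomial.C (c' t))).totalDegree < T.card := by
  have h1 : ∀ (c : ι → K) (t : ι), (l t + MvPolynomial.C (c t)).totalDegree ≤ 1 := by
    intro c t
    refine (MvPolynomial.totalDegree_add _ _).trans ?_
    rw [MvPolynomial.totalDegree_C]
    exact max_le (hl t) (Nat.zero_le _)
  have h2 : ∀ (c : ι → K) (T : Finset ι),
      (∏ t ∈ T, (l t + MvPolynomial.C (c t))).totalDegree ≤ T.card := by
    intro c T
    refine (MvPolynomial.totalDegree_finsetProd _ _).trans ?_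
    refine (Finset.sum_le_sum fun t _ => h1 c t).trans ?_
    simp
  induction T using Finset.induction_on with
  | empty => left; simp
  | insert t T ht ih =>
    rw [Finset.prod_insert ht, Finset.prod_insert ht, Finset.card_insert_of_notMem ht]
    set A := ∏ t ∈ T, (l t + MvPolynomial.C (c t)) with hA
    set B := ∏ t ∈ T, (l t + MvPolynomial.C (c' t)) with hB
    right
    have e : (l t + MvPolynomial.C (c t)) * A - (l t + MvPolynomial.C (c' t)) * B =
        (l t + MvPolynomial.C (c t)) * (A - B) + MvPolynomial.C (c t - c' t) * B := by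
      rw [map_sub]; ring
    rw [e]
    have k1 : (MvPolynomial.C (c t - c' t) * B).totalDegree ≤ T.card := by
      refine (MvPolynomial.totalDegree_mul _ _).trans ?_
      rw [MvPolynomial.totalDegree_C, zero_add]
      exact h2 c' T
    have k2 : ((l t + MvPolynomial.C (c t)) * (A - B)).totalDegree ≤ T.card := by
      rcases ih with h0 | hlt
      · rw [h0, mul_zero, MvPolynomial.totalDegree_zero]
        exact Nat.zero_le _
      · refine (MvPolynomial.totalDegree_mul _ _).trans ?_
        have := h1 c t
        omega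
    refine lt_of_le_of_lt (MvPolynomial.totalDegree_add _ _) ?_
    exact Nat.lt_succ_of_le (max_le k2 k1)

lemma sign_inst {α : Type} (i1 i2 : DecidableEq α) (f1 f2 : Fintype α) (π : Equiv.Perm α) :
    @Equiv.Perm.sign α i1 f1 π = @Equiv.Perm.sign α i2 f2 π := by
  obtain rfl : i1 = i2 := Subsingleton.elim _ _
  obtain rfl : f1 = f2 := Subsingleton.elim _ _
  rfl

section

set_option linter.unusedSectionVars false

variable {p : ℕ} [Fact p.Prime] {I : Type} [Fintype I]

/-- the Vandermonde product -/
noncomputable def vd (e : Option (I × Bool) ≃ Fin p) (f : Option (I × Bool) → ZMod p) : ZMod p :=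
  (Matrix.vandermonde (fun i => f (e.symm i))).det

lemma vd_sg (e : Option (I × Bool) ≃ Fin p) (ρ : Option (I × Bool) ≃ ZMod p)
    (f : Option (I × Bool) → ZMod p) : ((sg ρ f : ℤ) : ZMod p) * vd e ρ = vd e f := by
  by_cases h : Function.Bijective f
  · obtain ⟨e', rfl⟩ := exists_equiv f h
    rw [sg_equiv]
    set π : Equiv.Perm (Option (I × Bool)) := e'.trans ρ.symm with hπ
    set σ : Equiv.Perm (Fin p) := (e.symm.trans π).trans e with hσ
    have h1 : Matrix.vandermonde (fun i => e' (e.symm i)) =
        (Matrix.vandermonde (fun i => ρ (e.symm i))).submatrix σ id := by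
      ext i j
      simp [Matrix.vandermonde_apply, hσ, hπ]
    unfold vd
    rw [h1, Matrix.det_permute]
    congr 1
    have h2 : Equiv.Perm.sign σ = Equiv.Perm.sign π := by
      rw [hσ]
      exact Equiv.Perm.sign_symm_trans_trans π e
    rw [h2]
    exact congrArg (fun z : ℤˣ => ((z : ℤ) : ZMod p)) (sign_inst _ _ _ _ π)
  · rw [sg_of_not ρ f h]
    have hni : ¬ Function.Injective (fun i => f (e.symm i)) := by
      intro hi
      apply h
      have hf : Function.Injective f := by
        intro x y hxy
        have := @hi (e x) (e y) (by simpa using hxy)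
        exact e.injective this
      refine (Fintype.bijective_iff_injective_and_card f).2 ⟨hf, ?_⟩
      exact Fintype.card_congr ρ
    have : vd e f = 0 := by
      by_contra hne
      exact hni (Matrix.det_vandermonde_ne_zero_iff.1 hne)
    rw [this]
    simp

lemma vd_ne (e : Option (I × Bool) ≃ Fin p) (ρ : Option (I × Bool) ≃ ZMod p) : vd e ρ ≠ 0 :=
  Matrix.det_vandermonde_ne_zero_iff.2 (ρ.injective.comp e.symm.injective)

/-- ordered pairs -/
noncomputable def PP (e : Option (I × Bool) ≃ Fin p) :
    Finset (Option (I × Bool) × Option (I × Bool)) :=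
  univ.filter fun q => e q.1 < e q.2

lemma vd_eq (e : Option (I × Bool) ≃ Fin p) (f : Option (I × Bool) → ZMod p) :
    vd e f = ∏ q ∈ PP e, (f q.2 - f q.1) := by
  unfold vd PP
  rw [Matrix.det_vandermonde, Finset.prod_filter, Fintype.prod_prod_type]
  rw [← e.symm.prod_comp]
  refine Finset.prod_congr rfl fun i _ => ?_
  rw [← e.symm.prod_comp, ← Finset.prod_filter]
  refine Finset.prod_congr ?_ fun _ _ => rfl
  ext j
  simp

lemma card_PP (e : Option (I × Bool) ≃ Fin p) : (PP e).card * 2 + p = p * p := by
  have hD : Fintype.card (Option (I × Bool)) = p := by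
    rw [Fintype.card_congr e, Fintype.card_fin]
  have h1 : (∑ q : Option (I × Bool) × Option (I × Bool), 1) = p * p := by
    rw [Finset.sum_const, Finset.card_univ, Fintype.card_prod, hD, smul_eq_mul, mul_one]
  have h2 : ∀ q : Option (I × Bool) × Option (I × Bool), 1 =
      (if e q.1 < e q.2 then 1 else 0) + (if e q.2 < e q.1 then 1 else 0) +
        (if q.1 = q.2 then 1 else 0) := by
    intro q
    rcases lt_trichotomy (e q.1) (e q.2) with h | h | h
    · have hne : q.1 ≠ q.2 := by
        intro h'
        rw [h'] at h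
        exact lt_irrefl _ h
      simp [h, h.not_gt, hne]
    · have he := e.injective h
      simp [he]
    · have hne : q.1 ≠ q.2 := by
        intro h'
        rw [h'] at h
        exact lt_irrefl _ h
      simp [h, h.not_gt, hne]
  rw [Finset.sum_congr rfl fun q _ => h2 q, Finset.sum_add_distrib, Finset.sum_add_distrib] at h1
  have h3 : (∑ q : Option (I × Bool) × Option (I × Bool), if e q.2 < e q.1 then 1 else 0) =
      ∑ q : Option (I × Bool) × Option (I × Bool), if e q.1 < e q.2 then 1 else 0 := by
    rw [← (Equiv.prodComm (Option (I × Bool)) (Option (I × Bool))).sum_comp]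
    rfl
  have h4 : (∑ q : Option (I × Bool) × Option (I × Bool), if q.1 = q.2 then 1 else 0) = p := by
    rw [Fintype.sum_prod_type]
    simp only [Finset.sum_ite_eq, Finset.mem_univ, if_true]
    rw [Finset.sum_const, Finset.card_univ, hD, smul_eq_mul, mul_one]
  have h5 : (∑ q : Option (I × Bool) × Option (I × Bool), if e q.1 < e q.2 then 1 else 0) =
      (PP e).card := by
    unfold PP
    rw [Finset.card_filter]
  rw [h3, h4, h5] at h1
  omega

/-- linear parts -/
noncomputable def lin : Option (I × Bool) → MvPolynomial I (ZMod p)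
  | none => 0
  | some (i, _) => MvPolynomial.X i

/-- constants -/
def cst (g : I → ZMod p) : Option (I × Bool) → ZMod p
  | none => 0
  | some (_, true) => 0
  | some (i, false) => - g i

lemma ff_eq (g a : I → ZMod p) (d : Option (I × Bool)) :
    ff g a d = MvPolynomial.eval a (lin d) + cst g d := by
  rcases d with _ | ⟨i, _ | _⟩
  · simp [ff, lin, cst]
  · simp [ff, lin, cst, sub_eq_add_neg]
  · simp [ff, lin, cst]

lemma lin_deg (d : Option (I × Bool)) : (lin d : MvPolynomial I (ZMod p)).totalDegree ≤ 1 := by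
  rcases d with _ | ⟨i, b⟩
  · simp [lin]
  · simp [lin]

/-- special pairs -/
noncomputable def sp (e : Option (I × Bool) ≃ Fin p) (i : I) :
    Option (I × Bool) × Option (I × Bool) :=
  if e (some (i, true)) < e (some (i, false)) then (some (i, true), some (i, false))
  else (some (i, false), some (i, true))

/-- signs of the special pairs -/
noncomputable def ep (e : Option (I × Bool) ≃ Fin p) (i : I) : ZMod p :=
  if e (some (i, true)) < e (some (i, false)) then -1 else 1

lemma sp_inj (e : Option (I × Bool) ≃ Fin p) : Function.Injective (sp e) := by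
  intro i j hij
  unfold sp at hij
  split_ifs at hij <;> simp at hij <;> tauto

lemma sp_mem (e : Option (I × Bool) ≃ Fin p) (i : I) : sp e i ∈ PP e := by
  unfold sp PP
  split_ifs with h
  · exact Finset.mem_filter.2 ⟨Finset.mem_univ _, h⟩
  · refine Finset.mem_filter.2 ⟨Finset.mem_univ _, lt_of_le_of_ne (not_lt.1 h) ?_⟩
    intro h'
    have := e.injective h'
    simp at this

lemma sp_val (e : Option (I × Bool) ≃ Fin p) (g a : I → ZMod p) (i : I) :
    ff g a (sp e i).2 - ff g a (sp e i).1 = ep e i * g i := by
  unfold sp ep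
  split_ifs with h
  · simp [ff]
  · simp [ff]

/-- the special pairs -/
noncomputable def SS (e : Option (I × Bool) ≃ Fin p) :
    Finset (Option (I × Bool) × Option (I × Bool)) := univ.image (sp e)

/-- the polynomial of the other pairs -/
noncomputable def UU (e : Option (I × Bool) ≃ Fin p) (g : I → ZMod p) : MvPolynomial I (ZMod p) :=
  ∏ q ∈ PP e \ SS e, ((lin q.2 - lin q.1) + MvPolynomial.C (cst g q.2 - cst g q.1))

lemma vd_ff (e : Option (I × Bool) ≃ Fin p) (g a : I → ZMod p) :
    vd e (ff g a) = MvPolynomial.eval a (UU e g) * ((∏ i, ep e i) * ∏ i, g i) := by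
  have hsub : SS e ⊆ PP e := by
    intro q hq
    obtain ⟨i, _, rfl⟩ := Finset.mem_image.1 hq
    exact sp_mem e i
  rw [vd_eq, ← Finset.prod_sdiff hsub]
  congr 1
  · unfold UU
    rw [map_prod]
    refine Finset.prod_congr rfl fun q _ => ?_
    rw [ff_eq, ff_eq]
    simp only [map_add, map_sub, MvPolynomial.eval_C]
    ring
  · unfold SS
    rw [Finset.prod_image (fun i _ j _ h => sp_inj e h), ← Finset.prod_mul_distrib]
    refine Finset.prod_congr rfl fun i _ => ?_
    exact sp_val e g a i

lemma card_I (e : Option (I × Bool) ≃ Fin p) : 2 * Fintype.card I + 1 = p := by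
  have hD : Fintype.card (Option (I × Bool)) = p := by
    rw [Fintype.card_congr e, Fintype.card_fin]
  rw [Fintype.card_option, Fintype.card_prod, Fintype.card_bool] at hD
  omega

lemma card_rest (e : Option (I × Bool) ≃ Fin p) :
    (PP e \ SS e).card = (p - 1) * Fintype.card I := by
  have hsub : SS e ⊆ PP e := by
    intro q hq
    obtain ⟨i, _, rfl⟩ := Finset.mem_image.1 hq
    exact sp_mem e i
  have h1 := Finset.card_sdiff_add_card_eq_card hsub
  have h2 : (SS e).card = Fintype.card I := by
    unfold SS
    rw [Finset.card_image_of_injective _ (sp_inj e), Finset.card_univ]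
  have h3 := card_PP e
  have h4 := card_I e
  obtain ⟨m, hm⟩ : ∃ m, Fintype.card I = m := ⟨_, rfl⟩
  rw [hm] at h4 h2 ⊢
  have hp : p = 2 * m + 1 := h4.symm
  have h5 : (PP e).card * 2 + (2 * m + 1) = (2 * m + 1) * (2 * m + 1) := by
    rw [← hp]; exact h3
  have h6 : (PP e).card = (2 * m + 1) * m := by nlinarith
  have h7 : p - 1 = 2 * m := by omega
  rw [h7]
  have h8 : (PP e \ SS e).card + m = (2 * m + 1) * m := by rw [← h6, ← h1, h2]
  nlinarith

lemma sum_UU (e : Option (I × Bool) ≃ Fin p) (g g' : I → ZMod p) :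
    ∑ a : I → ZMod p, MvPolynomial.eval a (UU e g) =
      ∑ a : I → ZMod p, MvPolynomial.eval a (UU e g') := by
  have hd := deg (PP e \ SS e) (fun q => (lin q.2 - lin q.1 : MvPolynomial I (ZMod p)))
    (fun q => (MvPolynomial.totalDegree_sub _ _).trans (max_le (lin_deg _) (lin_deg _)))
    (fun q => cst g q.2 - cst g q.1) (fun q => cst g' q.2 - cst g' q.1)
  have hd' : UU e g - UU e g' = 0 ∨ (UU e g - UU e g').totalDegree < (PP e \ SS e).card := hd
  rw [← sub_eq_zero, ← Finset.sum_sub_distrib]
  have h1 : ∀ a : I → ZMod p, MvPolynomial.eval a (UU e g) - MvPolynomial.eval a (UU e g') =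
      MvPolynomial.eval a (UU e g - UU e g') := fun a => (map_sub _ _ _).symm
  rw [Finset.sum_congr rfl fun a _ => h1 a]
  rcases hd' with h | h
  · rw [h]
    simp
  · apply MvPolynomial.sum_eval_eq_zero
    rw [ZMod.card]
    rwa [card_rest] at h

end

theorem main : S_YA := by
  intro p hp hp2 I _ ρ g
  let e : Option (I × Bool) ≃ Fin p := ρ.trans (Fintype.equivFinOfCardEq (ZMod.card p))
  have h1 : ∀ g : I → ZMod p, vd e ρ * ((YY ρ g : ℤ) : ZMod p) =
      (∑ a : I → ZMod p, MvPolynomial.eval a (UU e g)) * ((∏ i, ep e i) * ∏ i, g i) := by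
    intro g
    unfold YY
    rw [Int.cast_sum, Finset.mul_sum, Finset.sum_mul]
    refine Finset.sum_congr rfl fun a _ => ?_
    rw [mul_comm, vd_sg, vd_ff]
  have h2 := h1 g
  have h3 := h1 (fun _ => 1)
  rw [sum_UU e g (fun _ => 1)] at h2
  apply mul_left_cancel₀ (vd_ne e ρ)
  simp only [Finset.prod_const_one, mul_one] at h3
  calc vd e ρ * ((YY ρ g : ℤ) : ZMod p)
      = ((∑ a : I → ZMod p, MvPolynomial.eval a (UU e (fun _ => 1))) * ∏ i, ep e i) * ∏ i, g i := by
        rw [h2]; ring
    _ = (vd e ρ * ((YY ρ (fun _ => 1) : ℤ) : ZMod p)) * ∏ i, g i := by rw [h3]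
    _ = vd e ρ * (((YY ρ (fun _ => 1) : ℤ) : ZMod p) * ∏ i, g i) := by ring

end Pool.Agent.W970.LE.YA
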